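import Mathlib

/-!
Zero-sum subsequences of length `2^k` in the group `(Z/2^k)^d`, in terms of integer vectors.
`harborth`: every multiset of `2^d (2^k - 1) + 1` vectors contains `2^k` vectors with sum
divisible by `2^k` (Harborth). `struct`: the extremal multisets (Property D). `sum_ne`: the sum of
an extremal multiset is not divisible by `2^k` when `k ≥ d`.
-/

set_option autoImplicit false

namespace Pool.Agent.Q40.EGZ

open Multiset

variable {d : ℕ}

/-- reduction modulo `n`, coordinatewise -/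
def red (d n : ℕ) : (Fin d → ℤ) →+ (Fin d → ZMod n) where
  toFun x := fun i => (x i : ZMod n)
  map_zero' := by ext i; simp
  map_add' x y := by ext i; simp

lemma red_two_mul (n : ℕ) (x : Fin d → ℤ) : red d (2 * n) (2 • x) = 0 ↔ red d n x = 0 := by
  constructor
  · intro h
    ext i
    have hi := congrFun h i
    change (((2 • x) i : ℤ) : ZMod (2 * n)) = 0 at hi
    change ((x i : ℤ) : ZMod n) = 0
    rw [ZMod.intCast_zmod_eq_zero_iff_dvd] at hi ⊢
    rw [Pi.smul_apply, nsmul_eq_mul] at hi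
    push_cast at hi
    exact (mul_dvd_mul_iff_left (by norm_num : (2:ℤ) ≠ 0)).mp hi
  · intro h
    ext i
    have hi := congrFun h i
    change ((x i : ℤ) : ZMod n) = 0 at hi
    change (((2 • x) i : ℤ) : ZMod (2 * n)) = 0
    rw [ZMod.intCast_zmod_eq_zero_iff_dvd] at hi ⊢
    rw [Pi.smul_apply, nsmul_eq_mul]
    push_cast
    exact mul_dvd_mul_left 2 hi

lemma exists_half (x y : Fin d → ℤ) (h : red d 2 x = red d 2 y) :
    ∃ z : Fin d → ℤ, x + y = 2 • z := by
  have h1 : ∀ i, ∃ z : ℤ, x i + y i = 2 * z := by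
    intro i
    have hi := congrFun h i
    change ((x i : ℤ) : ZMod 2) = ((y i : ℤ) : ZMod 2) at hi
    rw [ZMod.intCast_eq_intCast_iff_dvd_sub] at hi
    obtain ⟨c, hc⟩ := hi
    exact ⟨x i + c, by push_cast at hc; linarith⟩
  choose z hz using h1
  refine ⟨z, ?_⟩
  ext i
  rw [Pi.add_apply, hz i, Pi.smul_apply, nsmul_eq_mul]
  norm_num

/-- `P` arises from `S` by halving the sums of disjoint pairs of elements of `S`. -/
inductive Paired : Multiset (Fin d → ℤ) → Multiset (Fin d → ℤ) → Prop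
  | nil (S : Multiset (Fin d → ℤ)) : Paired S 0
  | cons {x y h : Fin d → ℤ} {S P : Multiset (Fin d → ℤ)} :
      x + y = 2 • h → Paired S P → Paired (x ::ₘ y ::ₘ S) (h ::ₘ P)

lemma Paired.lift {S P : Multiset (Fin d → ℤ)} (hp : Paired S P) :
    ∀ T' ≤ P, ∃ T ≤ S, card T = 2 * card T' ∧ T.sum = 2 • T'.sum := by
  induction hp with
  | nil S =>
    intro T' hT'
    obtain rfl : T' = 0 := by simpa using hT'
    exact ⟨0, Multiset.zero_le _, by simp⟩
  | @cons x y h S P hxy _ ih =>
    intro T' hT'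
    by_cases hm : h ∈ T'
    · have h1 : T'.erase h ≤ P := Multiset.erase_le_iff_le_cons.mpr hT'
      obtain ⟨T, hT, hc, hs⟩ := ih _ h1
      have h2 : T' = h ::ₘ T'.erase h := (Multiset.cons_erase hm).symm
      refine ⟨x ::ₘ y ::ₘ T, ?_, ?_, ?_⟩
      · exact Multiset.cons_le_cons _ (Multiset.cons_le_cons _ hT)
      · rw [h2, Multiset.card_cons, Multiset.card_cons, Multiset.card_cons, hc]; ring
      · rw [h2, Multiset.sum_cons, Multiset.sum_cons, Multiset.sum_cons, hs, smul_add, ← hxy,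
          add_assoc]
    · have h1 : T' ≤ P := (Multiset.le_cons_of_notMem hm).mp hT'
      obtain ⟨T, hT, hc, hs⟩ := ih _ h1
      exact ⟨T, hT.trans ((Multiset.le_cons_self _ _).trans (Multiset.le_cons_self _ _)), hc, hs⟩

lemma exists_le_map {α β : Type*} [DecidableEq β] (f : α → β) (S : Multiset α) :
    ∀ U ≤ S.map f, ∃ T ≤ S, T.map f = U := by
  induction S using Multiset.induction_on with
  | empty =>
    intro U hU
    obtain rfl : U = 0 := by simpa using hU
    exact ⟨0, le_refl _, rfl⟩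
  | cons a S ih =>
    intro U hU
    rw [Multiset.map_cons] at hU
    by_cases hm : f a ∈ U
    · have h1 : U.erase (f a) ≤ S.map f := Multiset.erase_le_iff_le_cons.mpr hU
      obtain ⟨T, hT, hTU⟩ := ih _ h1
      exact ⟨a ::ₘ T, Multiset.cons_le_cons _ hT, by
        rw [Multiset.map_cons, hTU, Multiset.cons_erase hm]⟩
    · obtain ⟨T, hT, hTU⟩ := ih _ ((Multiset.le_cons_of_notMem hm).mp hU)
      exact ⟨T, hT.trans (Multiset.le_cons_self _ _), hTU⟩

lemma pigeon (C : Finset (Fin d → ZMod 2)) (S : Multiset (Fin d → ℤ))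
    (hC : ∀ x ∈ S, red d 2 x ∈ C) (hlt : C.card < card S) :
    ∃ (x y : Fin d → ℤ) (S' : Multiset (Fin d → ℤ)),
      S = x ::ₘ y ::ₘ S' ∧ red d 2 x = red d 2 y := by
  classical
  have hnd : ¬ (S.map (red d 2)).Nodup := by
    intro hnd
    have h1 := Multiset.toFinset_card_of_nodup hnd
    have h2 : (S.map (red d 2)).toFinset ⊆ C := by
      intro c hc
      rw [Multiset.mem_toFinset, Multiset.mem_map] at hc
      obtain ⟨x, hx, rfl⟩ := hc
      exact hC x hx
    have h3 := Finset.card_le_card h2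
    rw [h1, Multiset.card_map] at h3
    omega
  rw [Multiset.nodup_iff_le] at hnd
  push Not at hnd
  obtain ⟨a, ha⟩ := hnd
  obtain ⟨T, hT, hTa⟩ := exists_le_map (red d 2) S _ ha
  have hc : card T = 2 := by
    have := congrArg card hTa
    simpa using this
  obtain ⟨x, y, rfl⟩ := Multiset.card_eq_two.mp hc
  obtain ⟨S', rfl⟩ := Multiset.le_iff_exists_add.mp hT
  refine ⟨x, y, S', by simp [← Multiset.singleton_add, Multiset.insert_eq_cons, add_assoc], ?_⟩
  have hx : red d 2 x ∈ (a ::ₘ a ::ₘ 0 : Multiset _) := by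
    rw [← hTa]; exact Multiset.mem_map_of_mem _ (by simp)
  have hy : red d 2 y ∈ (a ::ₘ a ::ₘ 0 : Multiset _) := by
    rw [← hTa]; exact Multiset.mem_map_of_mem _ (by simp)
  simp only [Multiset.mem_cons, Multiset.notMem_zero, or_false, or_self] at hx hy
  rw [hx, hy]

lemma exists_paired (m : ℕ) : ∀ (C : Finset (Fin d → ZMod 2)) (S : Multiset (Fin d → ℤ)),
    (∀ x ∈ S, red d 2 x ∈ C) → (m = 0 ∨ C.card + 2 * m ≤ card S + 1) →
    ∃ P, Paired S P ∧ card P = m := by
  induction m with
  | zero => intro C S _ _; exact ⟨0, Paired.nil S, rfl⟩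
  | succ m ih =>
    intro C S hC hm
    have hm' : C.card + 2 * (m + 1) ≤ card S + 1 := by
      rcases hm with hm | hm
      · omega
      · exact hm
    obtain ⟨x, y, S', rfl, hxy⟩ := pigeon C S hC (by omega)
    obtain ⟨h, hh⟩ := exists_half x y hxy
    rw [Multiset.card_cons, Multiset.card_cons] at hm'
    obtain ⟨P, hP, hc⟩ := ih C S' (fun z hz => hC z (by simp [hz])) (Or.inr (by omega))
    exact ⟨h ::ₘ P, Paired.cons hh hP, by rw [Multiset.card_cons, hc]⟩

lemma exists_pred_pow (k : ℕ) : ∃ b, 2 ^ k = b + 1 :=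
  ⟨2 ^ k - 1, by have := Nat.one_le_two_pow (n := k); omega⟩

lemma card_classes : (Finset.univ : Finset (Fin d → ZMod 2)).card = 2 ^ d := by
  rw [Finset.card_univ, Fintype.card_pi]
  simp [ZMod.card]

/-- Harborth: `2^d (2^k - 1) + 1` vectors contain `2^k` vectors with sum divisible by `2^k`. -/
theorem harborth (k : ℕ) : ∀ S : Multiset (Fin d → ℤ), 2 ^ d * (2 ^ k - 1) + 1 ≤ card S →
    ∃ T ≤ S, card T = 2 ^ k ∧ red d (2 ^ k) T.sum = 0 := by
  induction k with
  | zero =>
    intro S hS
    have h1 : 0 < card S := by omega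
    obtain ⟨x, hx⟩ := Multiset.card_pos_iff_exists_mem.mp h1
    refine ⟨{x}, Multiset.singleton_le.mpr hx, by simp, ?_⟩
    ext i
    have : Subsingleton (ZMod (2 ^ 0)) := by rw [pow_zero]; infer_instance
    exact Subsingleton.elim _ _
  | succ k ih =>
    intro S hS
    obtain ⟨b, hb⟩ := exists_pred_pow k
    have h2 : 2 ^ (k + 1) = 2 * (b + 1) := by rw [pow_succ, hb]; ring
    obtain ⟨P, hP, hc⟩ := exists_paired (2 ^ d * b + 1) Finset.univ S
      (fun x _ => Finset.mem_univ _) (Or.inr (by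
        rw [card_classes]
        rw [h2] at hS
        have : 2 * (b + 1) - 1 = 2 * b + 1 := by omega
        rw [this] at hS
        nlinarith))
    obtain ⟨T', hT', hc', hs'⟩ := ih P (by rw [hc, hb]; simp)
    obtain ⟨T, hT, hcT, hsT⟩ := hP.lift T' hT'
    refine ⟨T, hT, by rw [hcT, hc', pow_succ]; ring, ?_⟩
    rw [hsT, pow_succ, mul_comm (2 ^ k) 2]
    exact (red_two_mul _ _).mpr hs'

/-- no `2^k` vectors of `S` have a sum divisible by `2^k` -/
def NoBad (k : ℕ) (S : Multiset (Fin d → ℤ)) : Prop :=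
  ∀ T ≤ S, card T = 2 ^ k → red d (2 ^ k) T.sum ≠ 0

lemma NoBad.mono {k : ℕ} {S R : Multiset (Fin d → ℤ)} (h : NoBad k S) (hR : R ≤ S) :
    NoBad k R := fun T hT hc => h T (hT.trans hR) hc

lemma NoBad.paired {k : ℕ} {S P : Multiset (Fin d → ℤ)} (h : NoBad (k + 1) S)
    (hp : Paired S P) : NoBad k P := by
  intro T' hT' hc hs
  obtain ⟨T, hT, hcT, hsT⟩ := hp.lift T' hT'
  refine h T hT (by rw [hcT, hc, pow_succ]; ring) ?_
  rw [hsT, pow_succ, mul_comm (2 ^ k) 2]
  exact (red_two_mul _ _).mpr hs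

lemma counts_eq (N : ℕ) (S : Multiset (Fin d → ℤ)) (hcard : card S = 2 ^ d * N)
    (hle : ∀ c, (S.map (red d 2)).count c ≤ N) : ∀ c, (S.map (red d 2)).count c = N := by
  have h1 : ∑ c : Fin d → ZMod 2, (S.map (red d 2)).count c = ∑ c : Fin d → ZMod 2, N := by
    rw [Finset.sum_const, card_classes, smul_eq_mul, ← hcard, ← Multiset.card_map (red d 2) S]
    exact Multiset.sum_count_eq_card (fun c _ => Finset.mem_univ c)
  intro c
  exact (Finset.sum_eq_sum_iff_of_le (fun c _ => hle c)).mp h1 c (Finset.mem_univ c)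

lemma red_sum_const {n : ℕ} (T : Multiset (Fin d → ℤ)) (v : Fin d → ZMod n)
    (h : ∀ x ∈ T, red d n x = v) : red d n T.sum = card T • v := by
  rw [map_multiset_sum, Multiset.map_congr rfl h, Multiset.map_const', Multiset.sum_replicate]

lemma nsmul_self_zero {n : ℕ} (v : Fin d → ZMod n) : n • v = 0 := by
  ext i
  rw [Pi.smul_apply, nsmul_eq_mul, ZMod.natCast_self, zero_mul]
  rfl

/-- if all vectors of one parity class are congruent mod `2^k`, each class occurs at most
`2^k - 1` times -/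
lemma count_le {k : ℕ} {S : Multiset (Fin d → ℤ)} (hS : NoBad k S)
    (hcon : ∀ x ∈ S, ∀ y ∈ S, red d 2 x = red d 2 y → red d (2 ^ k) x = red d (2 ^ k) y)
    (c : Fin d → ZMod 2) : (S.map (red d 2)).count c ≤ 2 ^ k - 1 := by
  by_contra hlt
  have h1 : 2 ^ k ≤ (S.map (red d 2)).count c := by omega
  rw [Multiset.le_count_iff_replicate_le] at h1
  obtain ⟨T, hT, hTc⟩ := exists_le_map (red d 2) S _ h1
  have hcT : card T = 2 ^ k := by
    have := congrArg card hTc
    simpa using this
  have hpar : ∀ x ∈ T, red d 2 x = c := by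
    intro x hx
    have : red d 2 x ∈ Multiset.replicate (2 ^ k) c := by
      rw [← hTc]; exact Multiset.mem_map_of_mem _ hx
    exact Multiset.eq_of_mem_replicate this
  have hpos : 0 < card T := by rw [hcT]; positivity
  obtain ⟨x0, hx0⟩ := Multiset.card_pos_iff_exists_mem.mp hpos
  refine hS T hT hcT ?_
  rw [red_sum_const T (red d (2 ^ k) x0), hcT, nsmul_self_zero]
  intro x hx
  exact hcon x (Multiset.mem_of_le hT hx) x0 (Multiset.mem_of_le hT hx0)
    (by rw [hpar x hx, hpar x0 hx0])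

/-- Property D for `(Z/2^k)^d`. -/
theorem struct (k : ℕ) (hk : 1 ≤ k) : ∀ S : Multiset (Fin d → ℤ),
    card S = 2 ^ d * (2 ^ k - 1) → NoBad k S →
    (∀ c, (S.map (red d 2)).count c = 2 ^ k - 1) ∧
    (∀ x ∈ S, ∀ y ∈ S, red d 2 x = red d 2 y → red d (2 ^ k) x = red d (2 ^ k) y) := by
  classical
  induction k, hk using Nat.le_induction with
  | base =>
    intro S hcard hS
    have h2 : ∀ x ∈ S, ∀ y ∈ S, red d 2 x = red d 2 y →
        red d (2 ^ 1) x = red d (2 ^ 1) y := by
      intro x _ y _ h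
      rw [pow_one]; exact h
    exact ⟨counts_eq _ S hcard (count_le hS h2), h2⟩
  | succ k hk ih =>
    intro S hcard hS
    obtain ⟨b, hb⟩ := exists_pred_pow k
    have hb1 : 1 ≤ b := by
      have : 2 ^ 1 ≤ 2 ^ k := Nat.pow_le_pow_right (by norm_num) hk
      omega
    have hpow : 2 ^ (k + 1) = 2 * (b + 1) := by rw [pow_succ, hb]; ring
    have hcard' : card S = 2 ^ d * (2 * b + 1) := by
      rw [hcard, hpow]; congr 1
    have hA : 1 ≤ 2 ^ d := Nat.one_le_two_pow
    have hAb : 1 ≤ 2 ^ d * b := Nat.mul_pos (by positivity) hb1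
    have hexp : 2 ^ d * (2 * b + 1) = 2 * (2 ^ d * b) + 2 ^ d := by ring
    have key : ∀ x ∈ S, ∀ y ∈ S, red d 2 x = red d 2 y →
        red d (2 ^ (k + 1)) x = red d (2 ^ (k + 1)) y := by
      intro x hx y hy hxy
      by_cases hne : x = y
      · rw [hne]
      obtain ⟨S', rfl⟩ := Multiset.exists_cons_of_mem hx
      have hy' : y ∈ S' := by
        rcases Multiset.mem_cons.mp hy with h | h
        · exact absurd h.symm hne
        · exact h
      obtain ⟨S0, rfl⟩ := Multiset.exists_cons_of_mem hy'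
      rw [Multiset.card_cons, Multiset.card_cons, hexp] at hcard'
      -- a third element of the same class
      have hz : ∃ z ∈ S0, red d 2 z = red d 2 x := by
        by_contra hno
        push Not at hno
        obtain ⟨P0, hP0, hcP0⟩ := exists_paired (2 ^ d * b) (Finset.univ.erase (red d 2 x)) S0
          (fun z hz => Finset.mem_erase.mpr ⟨hno z hz, Finset.mem_univ _⟩) (Or.inr (by
            rw [Finset.card_erase_of_mem (Finset.mem_univ _), card_classes]
            omega))
        obtain ⟨h, hh⟩ := exists_half x y hxy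
        have hP := Paired.cons hh hP0
        have hnb := NoBad.paired hS hP
        obtain ⟨T, hT, hcT, hsT⟩ := harborth k (h ::ₘ P0) (by
          rw [Multiset.card_cons, hcP0, hb]; simp)
        exact hnb T hT hcT hsT
      obtain ⟨z, hz, hzx⟩ := hz
      obtain ⟨S1, rfl⟩ := Multiset.exists_cons_of_mem hz
      rw [Multiset.card_cons] at hcard'
      obtain ⟨P0, hP0, hcP0⟩ := exists_paired (2 ^ d * b - 1) Finset.univ S1
        (fun z hz => Finset.mem_univ _) (Or.inr (by
          rw [card_classes]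
          omega))
      obtain ⟨h1, hh1⟩ := exists_half z x hzx
      obtain ⟨h2, hh2⟩ := exists_half z y (hzx.trans hxy)
      have hp1 := Paired.cons hh1 hP0
      have hp2 := Paired.cons hh2 hP0
      have hle1 : z ::ₘ x ::ₘ S1 ≤ x ::ₘ y ::ₘ z ::ₘ S1 := by
        have e1 : x ::ₘ y ::ₘ z ::ₘ S1 = y ::ₘ (z ::ₘ x ::ₘ S1) := by
          rw [Multiset.cons_swap x y, Multiset.cons_swap x z]
        rw [e1]; exact Multiset.le_cons_self _ _
      have hle2 : z ::ₘ y ::ₘ S1 ≤ x ::ₘ y ::ₘ z ::ₘ S1 := by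
        rw [Multiset.cons_swap y z]; exact Multiset.le_cons_self _ _
      have hn1 := NoBad.paired (hS.mono hle1) hp1
      have hn2 := NoBad.paired (hS.mono hle2) hp2
      have hb' : 2 ^ k - 1 = b := by omega
      have hc1 : card (h1 ::ₘ P0) = 2 ^ d * (2 ^ k - 1) := by
        rw [Multiset.card_cons, hcP0, hb']; omega
      have hc2 : card (h2 ::ₘ P0) = 2 ^ d * (2 ^ k - 1) := by
        rw [Multiset.card_cons, hcP0, hb']; omega
      obtain ⟨q1, r1⟩ := ih _ hc1 hn1
      obtain ⟨q2, r2⟩ := ih _ hc2 hn2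
      have e1 := q1 (red d 2 h1)
      have e2 := q2 (red d 2 h1)
      rw [Multiset.map_cons, Multiset.count_cons, if_pos rfl, hb'] at e1
      rw [Multiset.map_cons, Multiset.count_cons, hb'] at e2
      have hpar : red d 2 h1 = red d 2 h2 := by
        by_contra hne'
        rw [if_neg hne'] at e2
        omega
      have hmain : red d (2 ^ k) h1 = red d (2 ^ k) h2 := by
        by_cases hb2 : b = 1
        · have hk2 : 2 ^ k = 2 := by omega
          rw [hk2]; exact hpar
        · have hpos : 0 < (P0.map (red d 2)).count (red d 2 h1) := by omega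
          rw [Multiset.count_pos, Multiset.mem_map] at hpos
          obtain ⟨g, hg, hgc⟩ := hpos
          rw [r1 h1 (Multiset.mem_cons_self _ _) g (Multiset.mem_cons_of_mem hg) hgc.symm,
            r2 h2 (Multiset.mem_cons_self _ _) g (Multiset.mem_cons_of_mem hg)
              (by rw [hgc, hpar])]
      have hsub : x - y = 2 • (h1 - h2) := by
        rw [smul_sub, ← hh1, ← hh2]; abel
      rw [← sub_eq_zero, ← map_sub, hsub, pow_succ, mul_comm (2 ^ k) 2]
      apply (red_two_mul _ _).mpr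
      rw [map_sub, hmain, sub_self]
    exact ⟨counts_eq _ S hcard (count_le hS key), key⟩

/-- For `1 ≤ d ≤ k` the sum of an extremal multiset is not divisible by `2^k`. -/
theorem sum_ne (k : ℕ) (hd : 1 ≤ d) (hdk : d ≤ k) (S : Multiset (Fin d → ℤ))
    (hcard : card S = 2 ^ d * (2 ^ k - 1)) (hS : NoBad k S) : red d (2 ^ k) S.sum ≠ 0 := by
  classical
  intro h0
  obtain ⟨hcount, hcon⟩ := struct k (hd.trans hdk) S hcard hS
  have hk2 : 2 ≤ 2 ^ k := by
    calc 2 = 2 ^ 1 := rfl
      _ ≤ 2 ^ k := Nat.pow_le_pow_right (by norm_num) (hd.trans hdk)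
  have hex : ∀ c : Fin d → ZMod 2, ∃ t ∈ S, red d 2 t = c := by
    intro c
    have : 0 < (S.map (red d 2)).count c := by rw [hcount c]; omega
    rw [Multiset.count_pos, Multiset.mem_map] at this
    exact this
  choose t htS htc using hex
  have hred : ∀ x ∈ S, red d (2 ^ k) x = red d (2 ^ k) (t (red d 2 x)) := by
    intro x hx
    exact hcon x hx _ (htS _) (htc _).symm
  have hsum : ∀ T ≤ S, ∀ j : ℕ, T.map (red d 2) = j • (Finset.univ : Finset (Fin d → ZMod 2)).val →
      red d (2 ^ k) T.sum = j • ∑ c, red d (2 ^ k) (t c) := by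
    intro T hT j hj
    rw [map_multiset_sum]
    have e1 : T.map (red d (2 ^ k)) = (T.map (red d 2)).map (fun c => red d (2 ^ k) (t c)) := by
      rw [Multiset.map_map]
      exact Multiset.map_congr rfl (fun x hx => hred x (Multiset.mem_of_le hT hx))
    rw [e1, hj, Multiset.map_nsmul, Multiset.sum_nsmul]
    rfl
  have hSmap : S.map (red d 2) = (2 ^ k - 1) • (Finset.univ : Finset (Fin d → ZMod 2)).val := by
    ext c
    rw [hcount c, Multiset.count_nsmul, Multiset.count_eq_one_of_mem Finset.univ.nodup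
      (Finset.mem_univ_val c), mul_one]
  have hW : ∑ c, red d (2 ^ k) (t c) = 0 := by
    have h1 := hsum S le_rfl _ hSmap
    rw [h0] at h1
    have h2 : (2 ^ k) • (∑ c, red d (2 ^ k) (t c)) = 0 := nsmul_self_zero _
    have h3 : 2 ^ k = (2 ^ k - 1) + 1 := by omega
    rw [h3, add_smul, one_smul] at h2
    rw [← h3, ← h1, zero_add] at h2
    exact h2
  have hj : 2 ^ (k - d) ≤ 2 ^ k - 1 := by
    have : 2 ^ (k - d) < 2 ^ k := Nat.pow_lt_pow_right (by norm_num) (by omega)
    omega
  have hle : (2 ^ (k - d)) • (Finset.univ : Finset (Fin d → ZMod 2)).val ≤ S.map (red d 2) := by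
    rw [hSmap]
    exact nsmul_le_nsmul_left (Multiset.zero_le _) hj
  obtain ⟨T, hT, hTm⟩ := exists_le_map (red d 2) S _ hle
  have hcT : card T = 2 ^ k := by
    have h1 := congrArg card hTm
    rw [Multiset.card_map, Multiset.card_nsmul] at h1
    have h2 : card (Finset.univ : Finset (Fin d → ZMod 2)).val = 2 ^ d := card_classes
    rw [h1, h2, ← pow_add]
    congr 1
    omega
  exact hS T hT hcT (by rw [hsum T hT _ hTm, hW, smul_zero])

end Pool.Agent.Q40.EGZ
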